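import Mathlib
import Pool.Agent.N988.EC.Stm
import Pool.Agent.N645.EZ_MXRS
import Pool.Agent.N186.EZ_DET

/-!
# Local determination of a bond of the ground states, deterministic part
-/

set_option autoImplicit false

open Filter Topology
open Pool.Agent.N988.EA Pool.Agent.N988.EZ Pool.Agent.N988.EC Pool.Agent.N186.EZ

namespace Pool.Agent.N494.EC

variable {b : ℕ}

theorem downG (hRS : S_RS) (q : Fin b × Bool) {n : ℕ} (J : Edge b (n + 1) → ℝ)
    (s : Pt b (n + 1) → Bool) (hs : Good J s) :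
    Good (fun e => J (q.1, q.2, e)) (R q s) ∧
      (|K0 n fun e => J (q.1, !q.2, e)| < |K0 n fun e => J (q.1, q.2, e)| →
        Sgn (fun e => J (q.1, q.2, e)) (R q s)) := by
  have h1 := (hRS b n J (fun t => s (.inl t)) (fun x => s (.inr x))).1 hs q.1
  obtain ⟨h2, h3⟩ := h1
  refine ⟨?_, fun hlt => ?_⟩
  · have h4 := h2 q.2
    have e1 : (fun t => R q s (.inl t)) = he (fun t => s (Sum.inl t)) q.2
        (s (Sum.inr (Sum.inl q.1 : Vert b (n + 1)))) := by
      funext t
      rw [R_inl]
      rfl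
    unfold Good
    rw [e1]
    exact h4
  · unfold Sgn
    rw [R_inl, R_inl]
    obtain ⟨i, h⟩ := q
    cases h with
    | false =>
      simp only [Bool.not_false] at hlt
      simp only [if_true, Bool.true_eq_false, if_false]
      exact core _ _ _ _ _ hlt h3
    | true =>
      simp only [Bool.not_true] at hlt
      simp only [if_true, Bool.false_eq_true, if_false]
      have := core _ _ (s (Sum.inr (Sum.inl i : Vert b (n + 1))))
        (s (Sum.inl true)) (s (Sum.inl false)) hlt (h3.trans_eq (by ring))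
      exact this.trans_eq (by ring)

theorem dec_iff {n : ℕ} (e : Edge b n) (J : Edge b n → ℝ) (c : ℝ) :
    Dec e J c ↔ ∀ s : Pt b n → Bool, Good J s → bond s e = c := by
  constructor
  · intro h s hs
    have h1 := h _ _ hs
    have e1 : (Sum.elim (fun t => s (.inl t)) (fun x => s (.inr x)) : Pt b n → Bool) = s := by
      funext x
      cases x <;> rfl
    rw [e1] at h1
    exact h1
  · intro h τ σ hσ
    exact h _ hσ

theorem bond_R (p : ℕ → Fin b × Bool) (n : ℕ) (s : Pt b (n + 1) → Bool) :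
    bond s (eo p (n + 1)) = bond (R (p n) s) (eo p n) := rfl

theorem bond_fl {n : ℕ} (s : Pt b n → Bool) (e : Edge b n) : bond (fl s) e = bond s e := by
  unfold bond fl
  rw [sg_not, sg_not]
  ring

theorem ps_cont {X : Type} [TopologicalSpace X] {f g : X → ℝ} (hf : Continuous f)
    (hg : Continuous g) : Continuous fun x => ps (f x) (g x) := by
  unfold ps
  fun_prop

theorem K0_cont : ∀ n : ℕ, Continuous (K0 n : (Edge b n → ℝ) → ℝ)
  | 0 => continuous_apply _
  | n + 1 => by
    have h : (K0 (n + 1) : (Edge b (n + 1) → ℝ) → ℝ) = fun J => ∑ i : Fin b,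
        ps (K0 n fun e => J (i, false, e)) (K0 n fun e => J (i, true, e)) := rfl
    rw [h]
    refine continuous_finsetSum _ fun i _ => ps_cont ?_ ?_
    · exact (K0_cont n).comp (continuous_pi fun e => continuous_apply _)
    · exact (K0_cont n).comp (continuous_pi fun e => continuous_apply _)

theorem act_cont {n : ℕ} (τ : Bool → Bool) (σ : Vert b n → Bool) :
    Continuous fun J : Edge b n → ℝ => act J τ σ := by
  unfold act
  refine continuous_finsetSum _ fun e _ => ?_
  exact ((continuous_apply e).mul continuous_const).mul continuous_const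

theorem good_stable {n : ℕ} (J : Edge b n → ℝ) :
    ∀ᶠ J' in 𝓝 J, ∀ s : Pt b n → Bool, Good J' s → Good J s := by
  rw [Filter.eventually_all]
  intro s
  by_cases hs : Good J s
  · exact Filter.Eventually.of_forall fun _ _ => hs
  · unfold Good Mx at hs
    push Not at hs
    obtain ⟨σ, hσ⟩ := hs
    filter_upwards [((act_cont _ _).continuousAt.eventually_lt (act_cont _ _).continuousAt hσ)]
      with J' hJ' hg
    exact absurd (hg σ) (not_le.2 hJ')

theorem stab_of {n : ℕ} (e : Edge b n) (J : Edge b n → ℝ) (c : ℝ)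
    (h : ∀ᶠ J' in 𝓝 J, Dec e J' c) : Stab (Dec e) J := by
  obtain ⟨δ, hδ, h1⟩ := Metric.eventually_nhds_iff.1 h
  refine ⟨c, δ, hδ, fun J' hJ' => h1 ?_⟩
  rw [dist_pi_lt_iff hδ]
  intro a
  rw [Real.dist_eq]
  exact hJ' a

theorem base (hRS : S_RS) (p : ℕ → Fin b × Bool) (m : ℕ) (J : EdgeInf b p → ℝ)
    (hU : UM (cpl p J m)) (hlt : |sib0 p J m| < |own0 p J m|) :
    Stab (Dec (eo p (m + 1))) (cpl p J (m + 1)) := by
  unfold sib0 own0 at hlt
  have hr := restr p J m
  -- the value
  obtain ⟨c, hc⟩ : ∃ c : ℝ, ∀ s : Pt b m → Bool, Good (cpl p J m) s → Sgn (cpl p J m) s →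
      bond s (eo p m) = c := by
    by_cases h0 : ∃ s₀, Good (cpl p J m) s₀ ∧ Sgn (cpl p J m) s₀
    · obtain ⟨s₀, g1, g2⟩ := h0
      refine ⟨bond s₀ (eo p m), fun s h1 h2 => ?_⟩
      rcases eq_or hU h1 g1 h2 g2 with h3 | h3
      · rw [h3]
      · rw [h3, bond_fl]
    · exact ⟨0, fun s h1 h2 => absurd ⟨s, h1, h2⟩ h0⟩
  apply stab_of _ _ c
  have hresc : ∀ q : Fin b × Bool, Continuous fun J' : Edge b (m + 1) → ℝ =>
      (fun e : Edge b m => J' (q.1, q.2, e)) := fun q => continuous_pi fun e => continuous_apply _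
  have hown := (K0_cont (b := b) m).comp (hresc (p m))
  have hsib := (K0_cont (b := b) m).comp (hresc ((p m).1, !(p m).2))
  have h1 : ∀ᶠ J' in 𝓝 (cpl p J (m + 1)), |K0 m fun e => J' ((p m).1, !(p m).2, e)| <
      |K0 m fun e => J' ((p m).1, (p m).2, e)| := by
    refine (hsib.abs.continuousAt.eventually_lt hown.abs.continuousAt ?_)
    show |K0 m fun e => cpl p J (m + 1) ((p m).1, !(p m).2, e)| <
      |K0 m fun e => cpl p J (m + 1) ((p m).1, (p m).2, e)|
    rw [hr]
    exact hlt
  have hpos : 0 < K0 m (cpl p J m) * K0 m (cpl p J m) := by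
    have : K0 m (cpl p J m) ≠ 0 := by
      intro h0
      rw [h0, abs_zero] at hlt
      exact absurd (abs_nonneg _) (not_le.2 hlt)
    exact mul_self_pos.2 this
  have h2 : ∀ᶠ J' in 𝓝 (cpl p J (m + 1)), 0 < (K0 m fun e => J' ((p m).1, (p m).2, e)) *
      K0 m (cpl p J m) := by
    refine (continuous_const.continuousAt.eventually_lt
      (hown.mul continuous_const).continuousAt ?_)
    show 0 < (K0 m fun e => cpl p J (m + 1) ((p m).1, (p m).2, e)) * K0 m (cpl p J m)
    rw [hr]
    exact hpos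
  have h3 : ∀ᶠ J' in 𝓝 (cpl p J (m + 1)), ∀ s : Pt b m → Bool,
      Good (fun e => J' ((p m).1, (p m).2, e)) s → Good (cpl p J m) s := by
    have h4 := good_stable (cpl p J m)
    rw [← hr] at h4
    have h5 := (hresc (p m)).continuousAt.eventually h4
    rw [hr] at h5
    exact h5
  filter_upwards [h1, h2, h3] with J' k1 k2 k3
  rw [dec_iff]
  intro s hs
  rw [bond_R]
  obtain ⟨d1, d2⟩ := downG hRS (p m) J' s hs
  refine hc _ (k3 _ d1) ?_
  have d3 := d2 k1
  unfold Sgn at d3 ⊢
  have d4 := mul_pos d3 k2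
  have d5 : 0 < (K0 m fun e => J' ((p m).1, (p m).2, e)) *
      (K0 m fun e => J' ((p m).1, (p m).2, e)) := by
    have : (K0 m fun e => J' ((p m).1, (p m).2, e)) ≠ 0 := by
      intro h0
      rw [h0, zero_mul] at k2
      exact lt_irrefl _ k2
    exact mul_self_pos.2 this
  refine (mul_pos_iff_of_pos_left d5).1 ?_
  refine d4.trans_eq ?_
  ring

theorem step (hRS : S_RS) (p : ℕ → Fin b × Bool) (N : ℕ) (J : EdgeInf b p → ℝ)
    (h : Stab (Dec (eo p N)) (cpl p J N)) : Stab (Dec (eo p (N + 1))) (cpl p J (N + 1)) := by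
  obtain ⟨c, δ, hδ, h1⟩ := h
  refine ⟨c, δ, hδ, fun J' hJ' => ?_⟩
  rw [dec_iff]
  intro s hs
  rw [bond_R]
  have h2 := h1 (fun e => J' ((p N).1, (p N).2, e)) (fun a => by
    rw [← restr p J N]
    exact hJ' _)
  rw [dec_iff] at h2
  exact h2 _ (downG hRS (p N) J' s hs).1

theorem loc (hRS : S_RS) : S_LOC := by
  intro b p m N J hmN hU hlt
  induction N, hmN using Nat.le_induction with
  | base => exact base hRS p m J hU hlt
  | succ N _ ih => exact step hRS p N J ih

theorem t_LOC : S_LOC := loc Pool.Agent.N645.EZ.t_RS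

end Pool.Agent.N494.EC
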