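import Pool.Agent.N988.ES.Stm

set_option autoImplicit false

/-!
# Project ES (helper988): the real analysis of the rate (Q3b, S_R2)
-/

namespace Pool.Agent.N494.ES

open Pool.Agent.N988.ES

theorem t_R2 : S_R2 := by
  intro b hb p hp0 hp1 hfix
  set a : ℝ := (1 - p ^ 2) ^ 2 with ha
  set v : ℝ := p * (1 - p) with hv
  have hpsq : 0 < 1 - p ^ 2 := by nlinarith
  have ha0 : 0 < a := by positivity
  have hv0 : 0 < v := mul_pos hp0 (by linarith)
  let K : ℝ → ℝ := fun u => a + 2 * p ^ 2 * u + u ^ 2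
  let Sg : ℝ → ℝ := fun u => ∑ i ∈ Finset.range b, (K u) ^ i * a ^ (b - 1 - i)
  let h : ℝ → ℝ := fun u => (2 * p ^ 2 + u) * Sg u
  let G : ℝ → ℝ := fun u => h u - p ^ 2 * a ^ (b - 2) * u ^ 2
  have hKc : Continuous K := by fun_prop
  have hSc : Continuous Sg := by
    refine continuous_finsetSum _ fun i _ => ?_
    exact (hKc.pow i).mul continuous_const
  have hhc : Continuous h := (continuous_const.add continuous_id).mul hSc
  have hGc : Continuous G := by
    refine hhc.sub ?_
    fun_prop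
  -- the factorisation
  have hfac : ∀ u : ℝ, (K u) ^ b - a ^ b = u * h u := by
    intro u
    have h1 := (Commute.all (K u) a).geom_sum₂_mul b
    have h2 : K u - a = u * (2 * p ^ 2 + u) := by simp only [K]; ring
    rw [← h1, h2]
    simp only [h, Sg]
    ring
  -- monotone
  have hKpos : ∀ u, 0 ≤ u → 0 < K u := fun u hu => by simp only [K]; positivity
  have hKmono : ∀ u w, 0 ≤ u → u ≤ w → K u ≤ K w := by
    intro u w hu huw
    simp only [K]
    gcongr
  have hSpos : ∀ u, 0 ≤ u → 0 < Sg u := by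
    intro u hu
    refine Finset.sum_pos (fun i _ => ?_) ⟨0, Finset.mem_range.2 (by omega)⟩
    have := hKpos u hu
    positivity
  have hSmono : ∀ u w, 0 ≤ u → u ≤ w → Sg u ≤ Sg w := by
    intro u w hu huw
    refine Finset.sum_le_sum fun i _ => ?_
    have h1 := hKpos u hu
    have h2 := hKmono u w hu huw
    gcongr
  have hhlt : ∀ u w, 0 ≤ u → u < w → h u < h w := by
    intro u w hu huw
    have h1 := hSmono u w hu huw.le
    have h2 := hSpos u hu
    have h3 : 0 < 2 * p ^ 2 + u := by positivity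
    calc h u = (2 * p ^ 2 + u) * Sg u := rfl
      _ < (2 * p ^ 2 + w) * Sg u := by gcongr
      _ ≤ (2 * p ^ 2 + w) * Sg w := by
          have : 0 ≤ 2 * p ^ 2 + w := by linarith
          gcongr
      _ = h w := rfl
  -- the value at v
  have hq : (1 - p ^ 2) ^ b = 1 - p := by linarith
  have hKv : K v = 1 - p ^ 2 := by simp only [K, ha, hv]; ring
  have hav : a ^ b = (1 - p) ^ 2 := by
    rw [ha, ← pow_mul, mul_comm, pow_mul, hq]
  have hhv : h v = 1 := by
    have h1 := hfac v
    rw [hKv, hq, hav] at h1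
    have h2 : v * h v = v * 1 := by
      rw [← h1, hv]; ring
    exact mul_left_cancel₀ hv0.ne' h2
  obtain ⟨u0, hu0, hmax⟩ := isCompact_Icc.exists_isMaxOn (Set.nonempty_Icc.2 hv0.le) hGc.continuousOn
  have hG1 : G u0 < 1 := by
    rcases hu0.1.eq_or_lt with h0 | h0
    · rw [← h0]
      have h1 := hhlt 0 v le_rfl hv0
      rw [hhv] at h1
      simp only [G]
      linarith
    · have h1 : h u0 ≤ 1 := by
        rcases hu0.2.eq_or_lt with h2 | h2
        · rw [h2, hhv]
        · have := hhlt u0 v h0.le h2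
          rw [hhv] at this
          exact this.le
      have h3 : 0 < p ^ 2 * a ^ (b - 2) * u0 ^ 2 := by positivity
      simp only [G]
      linarith
  refine ⟨max (G u0) 0, le_max_right _ _, max_lt hG1 one_pos, fun u hu0' huv => ?_⟩
  have h1 : G u ≤ G u0 := hmax ⟨hu0', huv⟩
  have h2 : G u ≤ max (G u0) 0 := h1.trans (le_max_left _ _)
  have h3 := hfac u
  have h4 : (a + 2 * p ^ 2 * u + u ^ 2) ^ b - a ^ b - p ^ 2 * a ^ (b - 2) * u ^ 3 = G u * u := by
    have : (a + 2 * p ^ 2 * u + u ^ 2) ^ b = (K u) ^ b := rfl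
    rw [this, h3]
    simp only [G]
    ring
  rw [h4]
  gcongr

end Pool.Agent.N494.ES
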