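import Mathlib
import Pool.Agent.N906.NT.Lim
import Pool.Agent.N906.RN.Stm

/-!
# Project RN, leaf FINRN: tuples with sum zero ordered by their radical
-/

set_option autoImplicit false

namespace Pool.Agent.N494.RN

open Finset Filter Topology Pool.Agent.N906.NT Pool.Agent.N906.RN

/-- change of the scale -/
theorem Gs_scale {ρ M : ℝ} (hM : 0 < M) :
    Tendsto (fun L : ℝ => Gs ρ (M * L) / Gs ρ L) atTop (𝓝 (M ^ ρ)) := by
  have h1 : Tendsto (fun L : ℝ => Real.log L / (Real.log M + Real.log L)) atTop (𝓝 1) := by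
    have h2 : Tendsto (fun L : ℝ => 1 / (Real.log M / Real.log L + 1)) atTop (𝓝 (1 / (0 + 1))) :=
      Tendsto.div tendsto_const_nhds
        ((Real.tendsto_log_atTop.const_div_atTop _).add_const 1) (by norm_num)
    rw [show (1 : ℝ) / (0 + 1) = 1 by norm_num] at h2
    refine h2.congr' ?_
    filter_upwards [eventually_gt_atTop 1] with L hL
    have hl := Real.log_pos hL
    rw [div_add_one hl.ne', one_div_div]
  have h3 : Tendsto (fun L : ℝ => (M * (Real.log L / (Real.log M + Real.log L))) ^ ρ) atTop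
      (𝓝 ((M * 1) ^ ρ)) :=
    (h1.const_mul M).rpow_const (Or.inl (by rw [mul_one]; exact hM.ne'))
  rw [mul_one] at h3
  refine h3.congr' ?_
  filter_upwards [eventually_gt_atTop 1, eventually_gt_atTop (1 / M)] with L hL hL2
  have hML : 1 < M * L := by rwa [div_lt_iff₀' hM] at hL2
  have hl1 := Real.log_pos hL
  have hl2 := Real.log_pos hML
  unfold Gs
  rw [← Real.div_rpow (div_nonneg (by linarith) hl2.le) (div_nonneg (by linarith) hl1.le)]
  congr 1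
  rw [Real.log_mul hM.ne' (by linarith)] at hl2 ⊢
  field_simp

theorem Gs_scale_le {ρ M : ℝ} (hM : 0 < M) (ε : ℝ) (hε : 0 < ε) :
    ∀ᶠ L : ℝ in atTop, Gs ρ (M * L) ≤ (M ^ ρ + ε) * Gs ρ L := by
  have h := (Gs_scale (ρ := ρ) hM).eventually (gt_mem_nhds (show M ^ ρ < M ^ ρ + ε by linarith))
  filter_upwards [h, eventually_gt_atTop 1] with L h1 h2
  rw [div_lt_iff₀ (Gs_pos h2)] at h1
  exact h1.le

/-- the scale is small compared with `L` -/
theorem Gs_small {ρ : ℝ} (hρ : 0 < ρ) (hρ1 : ρ < 1) :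
    Tendsto (fun L : ℝ => Gs ρ L / L) atTop (𝓝 0) := by
  have h1 : Tendsto (fun L : ℝ => L ^ (-(1 - ρ))) atTop (𝓝 0) :=
    tendsto_rpow_neg_atTop (by linarith)
  refine squeeze_zero' ?_ ?_ h1
  · filter_upwards [eventually_gt_atTop 1] with L hL
    exact div_nonneg (Gs_pos hL).le (by linarith)
  · filter_upwards [eventually_ge_atTop (Real.exp 1)] with L hL
    have hL1 : 1 < L := by
      have := Real.add_one_lt_exp (show (1 : ℝ) ≠ 0 by norm_num)
      linarith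
    have hL0 : 0 < L := by linarith
    have hl : 1 ≤ Real.log L := by
      rw [Real.le_log_iff_exp_le hL0]; exact hL
    rw [div_le_iff₀ hL0]
    have h2 : L ^ (-(1 - ρ)) * L = L ^ ρ := by
      rw [← Real.rpow_add_one hL0.ne']; congr 1; ring
    rw [h2]
    unfold Gs
    exact Real.rpow_le_rpow (div_nonneg hL0.le (by linarith)) (div_le_self hL0.le hl) hρ.le

/-- the conditions -/
def P0 (n r : ℕ) (x : Fin n → ℤ) : Prop :=
  ∑ i, x i = 0 ∧ (∀ i, x i ≠ 0) ∧ Tp (Dl n r) (ab x)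

theorem Ra_Ht {n r : ℕ} (hn : 0 < n) {M M' X : ℝ} (hM' : 0 ≤ M') {x : Fin n → ℤ}
    (hx : x ∈ Ra n r M M' X) : (Ht x : ℝ) ≤ X ^ M' := by
  obtain ⟨-, -, -, h4, -, h6⟩ := hx
  refine (Ht_le hn h6).trans (Real.rpow_le_rpow (Nat.cast_nonneg _) h4 hM')

theorem Ra_fin {n r : ℕ} (hn : 0 < n) {M M' : ℝ} (hM' : 0 ≤ M') (X : ℝ) :
    (Ra n r M M' X).Finite := by
  refine (box_card (n := n) (max (X ^ M') 1) (le_max_right _ _)).1.subset ?_
  intro x hx
  exact (Ra_Ht hn hM' hx).trans (le_max_left _ _)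

/-- the numbers -/
theorem basics {n : ℕ} (hn : 3 ≤ n) {M M' : ℝ} (hM1 : 1 / (n : ℝ) < M) (hMM : M < M')
    (hM2 : M' < 3 / (3 * (n : ℝ) - 1)) :
    0 < M ∧ M' < 1 ∧ 0 < (n : ℝ) - 1 / M ∧ (n : ℝ) - 1 / M < n - 1 / M' ∧
      (n : ℝ) - 1 / M' < 1 / 3 ∧ ((n : ℝ) - 1 / M) * M = n * M - 1 := by
  have hn3 : (3 : ℝ) ≤ n := by exact_mod_cast hn
  have hM : 0 < M := lt_trans (by positivity) hM1
  have hM'0 : 0 < M' := by linarith
  refine ⟨hM, ?_, ?_, ?_, ?_, ?_⟩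
  · refine hM2.trans_le ?_
    rw [div_le_one (by linarith)]
    linarith
  · rw [sub_pos, div_lt_iff₀ hM]
    rw [div_lt_iff₀ (by linarith)] at hM1
    linarith
  · have := one_div_lt_one_div_of_lt hM hMM
    linarith
  · rw [lt_div_iff₀ (by linarith)] at hM2
    have h1 : (n : ℝ) - 1 / 3 < 1 / M' := by
      rw [lt_div_iff₀ hM'0]
      linarith
    linarith
  · field_simp

/-- the exponent of one piece -/
theorem piece_ineq {κ M n L m ρ C : ℝ} (hρ : 0 < ρ) (hρ1 : ρ ≤ 1) (hκ : 0 ≤ κ) (hC : 0 ≤ C)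
    (hn : 0 ≤ n) (hκM : κ * M = n * M - 1) (hML : 1 < M * L) (hm : M * L ≤ m)
    (ha : C * (n / Real.log (M * L)) ^ ρ ≤ 1) :
    L - m + C * ((n * m - L) / Real.log m) ^ ρ ≤
      (1 - M) * L + C * (κ ^ ρ * Gs ρ (M * L)) + 1 := by
  obtain ⟨y, hy⟩ : ∃ y : ℝ, y = m - M * L := ⟨_, rfl⟩
  have hy0 : 0 ≤ y := by linarith
  have hl : 0 < Real.log (M * L) := Real.log_pos hML
  have hlm : Real.log (M * L) ≤ Real.log m := Real.log_le_log (by linarith) hm
  have h1 : n * m - L = κ * (M * L) + n * y := by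
    rw [hy, ← mul_assoc, hκM]; ring
  have h2 : 0 ≤ κ * (M * L) + n * y := by
    have : 0 ≤ κ * (M * L) := mul_nonneg hκ (by linarith)
    have : 0 ≤ n * y := mul_nonneg hn hy0
    linarith
  have h3 : (n * m - L) / Real.log m ≤ κ * (M * L / Real.log (M * L)) +
      n / Real.log (M * L) * y := by
    rw [h1]
    refine (div_le_div_of_nonneg_left h2 hl hlm).trans (le_of_eq ?_)
    rw [add_div]; ring
  have h4 : 0 ≤ (n * m - L) / Real.log m := by
    rw [h1]; exact div_nonneg h2 (by linarith)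
  have h5 : 0 ≤ κ * (M * L / Real.log (M * L)) :=
    mul_nonneg hκ (div_nonneg (by linarith) hl.le)
  have h6 : 0 ≤ n / Real.log (M * L) * y := mul_nonneg (div_nonneg hn hl.le) hy0
  have h7 : ((n * m - L) / Real.log m) ^ ρ ≤ (κ * (M * L / Real.log (M * L))) ^ ρ +
      (n / Real.log (M * L) * y) ^ ρ :=
    (Real.rpow_le_rpow h4 h3 hρ.le).trans (Real.rpow_add_le_add_rpow h5 h6 hρ.le hρ1)
  have h8 : (κ * (M * L / Real.log (M * L))) ^ ρ = κ ^ ρ * Gs ρ (M * L) := by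
    unfold Gs
    rw [Real.mul_rpow hκ (div_nonneg (by linarith) hl.le)]
  have h9 : (n / Real.log (M * L) * y) ^ ρ = (n / Real.log (M * L)) ^ ρ * y ^ ρ :=
    Real.mul_rpow (div_nonneg hn hl.le) hy0
  have h10 : y ^ ρ ≤ 1 + y := by
    rcases le_total y 1 with h | h
    · have := Real.rpow_le_one hy0 h hρ.le
      linarith
    · have := Real.rpow_le_rpow_of_exponent_le h hρ1
      rw [Real.rpow_one] at this
      linarith
  have h11 : C * (n / Real.log (M * L) * y) ^ ρ ≤ 1 + y := by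
    rw [h9, ← mul_assoc]
    have h12 : 0 ≤ y ^ ρ := Real.rpow_nonneg hy0 _
    have h13 : 0 ≤ C * (n / Real.log (M * L)) ^ ρ :=
      mul_nonneg hC (Real.rpow_nonneg (div_nonneg hn hl.le) _)
    calc _ ≤ 1 * y ^ ρ := mul_le_mul_of_nonneg_right ha h12
      _ ≤ 1 + y := by linarith
  have h14 := mul_le_mul_of_nonneg_left h7 hC
  rw [h8, mul_add] at h14
  have : m = M * L + y := by rw [hy]; ring
  linarith

/-- the upper bound -/
theorem upperR (h1 : S_UPR) {n r : ℕ} (hr : 1 ≤ r) (hrn : r + 2 ≤ n) {M M' : ℝ}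
    (hM1 : 1 / (n : ℝ) < M) (hMM : M < M') (hM2 : M' < 3 / (3 * (n : ℝ) - 1)) (ε : ℝ)
    (hε : 0 < ε) :
    ∀ᶠ L : ℝ in atTop, ((Ra n r M M' (Real.exp L)).ncard : ℝ) ≤
      Real.exp ((1 - M) * L + (cst r (n.choose r) * ((n : ℝ) * M - 1) ^ ((r : ℝ) / (r + 1)) + ε) *
        Gs ((r : ℝ) / (r + 1)) L) := by
  classical
  have hn3 : 3 ≤ n := by omega
  have hn0 : 0 < n := by omega
  have hr0 : (0 : ℝ) < r := by exact_mod_cast hr
  obtain ⟨ρ, hρ⟩ : ∃ ρ : ℝ, ρ = (r : ℝ) / (r + 1) := ⟨_, rfl⟩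
  have hρ0 : 0 < ρ := by rw [hρ]; positivity
  have hρ1 : ρ < 1 := by rw [hρ, div_lt_one (by positivity)]; linarith
  rw [← hρ]
  obtain ⟨hM, hM'1, k1, k2, k3, k4⟩ := basics hn3 hM1 hMM hM2
  have hM'0 : 0 < M' := by linarith
  obtain ⟨κ, hκ⟩ : ∃ κ : ℝ, κ = (n : ℝ) - 1 / M := ⟨_, rfl⟩
  obtain ⟨κ', hκ'⟩ : ∃ κ' : ℝ, κ' = (n : ℝ) - 1 / M' := ⟨_, rfl⟩
  rw [← hκ] at k1 k2 k4
  rw [← hκ'] at k2 k3
  obtain ⟨q, hq⟩ : ∃ q : ℝ, q = cst r (n.choose r) := ⟨_, rfl⟩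
  have hq0 : 0 ≤ q := by
    rw [hq]; unfold cst; positivity
  rw [← hq]
  obtain ⟨c, hc⟩ : ∃ c : ℝ, c = q * κ ^ ρ := ⟨_, rfl⟩
  have hc0 : 0 ≤ c := by rw [hc]; positivity
  have hcM : q * ((n : ℝ) * M - 1) ^ ρ = c * M ^ ρ := by
    rw [hc, ← k4, Real.mul_rpow k1.le hM.le]; ring
  rw [hcM]
  have hMρ : 0 < M ^ ρ := Real.rpow_pos_of_pos hM _
  obtain ⟨ε₁, hε₁⟩ : ∃ ε₁ : ℝ, ε₁ = ε / (4 * (M ^ ρ + 1)) := ⟨_, rfl⟩
  have hε₁0 : 0 < ε₁ := by rw [hε₁]; positivity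
  have hε₁M : ε₁ * M ^ ρ ≤ ε / 4 := by
    rw [hε₁, div_mul_eq_mul_div, div_le_div_iff₀ (by positivity) (by norm_num)]
    have e : ε * (4 * (M ^ ρ + 1)) = ε * M ^ ρ * 4 + 4 * ε := by ring
    rw [e]; linarith
  obtain ⟨ε₂, hε₂⟩ : ∃ ε₂ : ℝ, ε₂ = ε / (4 * (c + ε₁ + 1)) := ⟨_, rfl⟩
  have hε₂0 : 0 < ε₂ := by rw [hε₂]; positivity
  have hε₂c : (c + ε₁) * ε₂ ≤ ε / 4 := by
    rw [hε₂, mul_div_assoc', div_le_div_iff₀ (by positivity) (by norm_num)]
    have e : ε * (4 * (c + ε₁ + 1)) = (c + ε₁) * ε * 4 + 4 * ε := by ring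
    rw [e]; linarith
  obtain ⟨ε', hε'⟩ : ∃ ε' : ℝ, ε' = ε₁ / (c + 1) := ⟨_, rfl⟩
  have hε'0 : 0 < ε' := by rw [hε']; positivity
  have hε'c : ε' * c ≤ ε₁ := by
    rw [hε', div_mul_eq_mul_div, div_le_iff₀ (by positivity)]
    have e : ε₁ * (c + 1) = ε₁ * c + ε₁ := by ring
    rw [e]; linarith
  obtain ⟨X₀, hX₀, hup⟩ := h1 n r κ κ' ε' hr hrn k1 k2.le k3 hε'0
  have hVV := upper up_all hr hrn hM hκ k1 (by linarith) (P0 n r) (fun x h => h) ε₁ hε₁0
  rw [← hρ, ← hq, ← hc] at hVV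
  have hVV' := (tendsto_id.const_mul_atTop hM).eventually hVV
  have hscale := Gs_scale_le (ρ := ρ) hM ε₂ hε₂0
  have hlog := (log_small hρ0).eventually (gt_mem_nhds (show (0 : ℝ) < ε / 4 by positivity))
  have hGt : ∀ᶠ L : ℝ in atTop, 4 * (Real.log 4 + 1) / ε ≤ Gs ρ L :=
    (Gs_tendsto hρ0).eventually_ge_atTop _
  have ha : ∀ᶠ L : ℝ in atTop,
      (1 + ε') * q * ((n : ℝ) / Real.log (M * L)) ^ ρ ≤ 1 := by
    have t1 : Tendsto (fun L : ℝ => Real.log (M * L)) atTop atTop :=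
      Real.tendsto_log_atTop.comp (tendsto_id.const_mul_atTop hM)
    have t2 : Tendsto (fun L : ℝ => ((n : ℝ) / Real.log (M * L)) ^ ρ) atTop (𝓝 (0 ^ ρ)) :=
      (t1.const_div_atTop _).rpow_const (Or.inr hρ0.le)
    rw [Real.zero_rpow hρ0.ne'] at t2
    have t3 := t2.const_mul ((1 + ε') * q)
    rw [mul_zero] at t3
    filter_upwards [t3.eventually (gt_mem_nhds one_pos)] with L h
    exact h.le
  filter_upwards [hVV', hscale, hlog, hGt, ha, eventually_gt_atTop (1 / M),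
    eventually_ge_atTop (Real.log X₀ / M), eventually_gt_atTop 2] with L g1 g2 g3 g4 g5 g6 g7 g8
  simp only [id] at g1
  have hML : 1 < M * L := by rwa [div_lt_iff₀' hM] at g6
  have hMLX : X₀ ≤ Real.exp (M * L) := by
    rw [← Real.log_le_iff_le_exp (by linarith)]
    rwa [div_le_iff₀' hM] at g7
  have hL0 : 0 < L := by linarith
  have hG := Gs_pos (ρ := ρ) (show 1 < L by linarith)
  have hGM := Gs_pos (ρ := ρ) hML
  obtain ⟨X, hX⟩ : ∃ X : ℝ, X = Real.exp L := ⟨_, rfl⟩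
  have hX0 : 0 < X := by rw [hX]; exact Real.exp_pos _
  obtain ⟨Y, hY⟩ : ∃ Y : ℝ, Y = Real.exp (M' * L) := ⟨_, rfl⟩
  have hY0 : 0 < Y := by rw [hY]; exact Real.exp_pos _
  have hXY : X ^ M' = Y := by
    rw [hX, hY, ← Real.exp_mul]; congr 1; ring
  have hlY : Real.log Y = M' * L := by rw [hY, Real.log_exp]
  obtain ⟨U, hU⟩ : ∃ U : ℝ, U = Real.exp (M * L) := ⟨_, rfl⟩
  have hU0 : 0 < U := by rw [hU]; exact Real.exp_pos _
  have hlU : Real.log U = M * L := by rw [hU, Real.log_exp]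
  rw [← hU] at g1 hMLX
  rw [← hX]
  obtain ⟨K, hK⟩ : ∃ K : ℕ, K = ⌈2 * L⌉₊ := ⟨_, rfl⟩
  obtain ⟨W, hW⟩ : ∃ W : ℕ → Finset (Fin n → ℤ), ∀ k, ∀ x, x ∈ W k ↔
      P0 n r x ∧ (Ht x : ℝ) ≤ Y / 2 ^ k ∧ Y / 2 ^ k / 2 < Ht x ∧ U < Ht x ∧
        (rr (ab x) : ℝ) ≤ X := by
    have : ∀ k, ∃ W : Finset (Fin n → ℤ), ∀ x, x ∈ W ↔
      P0 n r x ∧ (Ht x : ℝ) ≤ Y / 2 ^ k ∧ Y / 2 ^ k / 2 < Ht x ∧ U < Ht x ∧
        (rr (ab x) : ℝ) ≤ X := by
      intro k
      have hfin : {x : Fin n → ℤ | P0 n r x ∧ (Ht x : ℝ) ≤ Y / 2 ^ k ∧ Y / 2 ^ k / 2 < Ht x ∧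
          U < Ht x ∧ (rr (ab x) : ℝ) ≤ X}.Finite :=
        (box_card (n := n) (max (Y / 2 ^ k) 1) (le_max_right _ _)).1.subset fun x hx =>
          hx.2.1.trans (le_max_left _ _)
      exact ⟨hfin.toFinset, fun x => by rw [Set.Finite.mem_toFinset]; rfl⟩
    choose W hW using this
    exact ⟨W, hW⟩
  have hsub : Ra n r M M' X ⊆ VV (P0 n r) M U ∪
      (((range K).biUnion W : Finset (Fin n → ℤ)) : Set (Fin n → ℤ)) := by
    intro x hx
    have hH := Ra_Ht hn0 hM'0.le hx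
    rw [hXY] at hH
    obtain ⟨i1, i2, i3, i4, ⟨i, i5⟩, i6⟩ := hx
    rcases le_or_gt (Ht x : ℝ) U with h | h
    · exact Or.inl ⟨⟨i1, i2, i3⟩, h, i5.trans_le (le_Ht x i)⟩
    right
    have hH0 : (0 : ℝ) < Ht x := by linarith
    obtain ⟨k, hk1, hk2⟩ := exists_nat_pow_near (x := Y / Ht x) (y := 2)
      (by rw [le_div_iff₀ hH0]; linarith) (by norm_num)
    have hk1' : (Ht x : ℝ) ≤ Y / 2 ^ k := by
      rw [le_div_iff₀ (by positivity)]
      rw [le_div_iff₀ hH0] at hk1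
      linarith
    have hk2' : Y / 2 ^ k / 2 < Ht x := by
      rw [div_div, div_lt_iff₀ (by positivity)]
      rw [div_lt_iff₀ hH0, pow_succ] at hk2
      linarith
    rw [mem_coe, mem_biUnion]
    refine ⟨k, ?_, (hW k x).2 ⟨⟨i1, i2, i3⟩, hk1', hk2', h, i4⟩⟩
    rw [mem_range, hK]
    apply Nat.lt_ceil.2
    have h5 : (2 : ℝ) ^ k < Real.exp L := by
      refine lt_of_le_of_lt hk1 ?_
      rw [div_lt_iff₀ hH0]
      have e1 : Y ≤ Real.exp L := by
        rw [hY]; apply Real.exp_le_exp.2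
        have := mul_le_mul_of_nonneg_right hM'1.le hL0.le
        linarith
      have e2 : 1 < (Ht x : ℝ) := by
        have : (1 : ℝ) < U := by rw [hU]; exact Real.one_lt_exp_iff.2 (by linarith)
        linarith
      have e3 := mul_lt_mul_of_pos_left e2 (Real.exp_pos L)
      rw [mul_one] at e3
      exact e1.trans_lt e3
    have h6 := Real.log_lt_log (by positivity) h5
    rw [Real.log_pow, Real.log_exp] at h6
    have h7 : (0.69 : ℝ) < Real.log 2 := by have := Real.log_two_gt_d9; linarith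
    have h8 := mul_le_mul_of_nonneg_left h7.le (Nat.cast_nonneg k : (0 : ℝ) ≤ k)
    have h9 : (k : ℝ) * 0.69 < L := h8.trans_lt h6
    linarith
  have hcount : ((Ra n r M M' X).ncard : ℝ) ≤ ((VV (P0 n r) M U).ncard : ℝ) +
      ∑ k ∈ range K, ((W k).card : ℝ) := by
    have h1 := Set.ncard_le_ncard hsub ((VV_fin _ _ _).union (Finset.finite_toSet _))
    have h2 := Set.ncard_union_le (VV (P0 n r) M U)
      (((range K).biUnion W : Finset (Fin n → ℤ)) : Set (Fin n → ℤ))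
    rw [Set.ncard_coe_finset] at h2
    have h3 : ((range K).biUnion W).card ≤ ∑ k ∈ range K, (W k).card := card_biUnion_le
    exact_mod_cast h1.trans (h2.trans (by omega))
  -- each piece
  obtain ⟨g, hg⟩ : ∃ g : ℝ, g = (1 - M) * L + (c + ε₁) * Gs ρ (M * L) + 1 := ⟨_, rfl⟩
  have hpiece : ∀ k ∈ range K, ((W k).card : ℝ) ≤ Real.exp g := by
    intro k _
    rcases (W k).eq_empty_or_nonempty with h0 | ⟨x₀, hx₀⟩
    · rw [h0, card_empty, Nat.cast_zero]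
      exact (Real.exp_pos _).le
    obtain ⟨Z, hZ⟩ : ∃ Z : ℝ, Z = Y / 2 ^ k := ⟨_, rfl⟩
    have hUZ : U < Z := by
      rw [hZ]
      have := (hW k x₀).1 hx₀
      linarith [this.2.1, this.2.2.2.1]
    have hZ0 : 0 < Z := by linarith
    have hZY : Z ≤ Y := by
      rw [hZ]; exact div_le_self hY0.le (one_le_pow₀ (by norm_num))
    obtain ⟨m, hm⟩ : ∃ m : ℝ, m = Real.log Z := ⟨_, rfl⟩
    have hm1 : M * L ≤ m := by rw [← hlU, hm]; exact Real.log_le_log hU0 hUZ.le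
    have hm2 : m ≤ M' * L := by rw [← hlY, hm]; exact Real.log_le_log hZ0 hZY
    have hm0 : 0 < m := by linarith
    have hLm1 : 1 / M' ≤ L / m := by
      rw [div_le_div_iff₀ hM'0 hm0]; linarith
    have hLm2 : L / m ≤ 1 / M := by
      rw [div_le_div_iff₀ hm0 hM]; linarith
    have hb := hup ((n : ℝ) - L / m) Z (W k) (by rw [hκ]; linarith) (by rw [hκ']; linarith)
      (by linarith) ?_
    · refine hb.trans (Real.exp_le_exp.2 ?_)
      have e1 : ((n : ℝ) - 1 - (n - L / m)) * Real.log Z = L - m := by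
        rw [← hm]; field_simp; ring
      have e2 : ((n : ℝ) - L / m) * Real.log Z = n * m - L := by
        rw [← hm]; field_simp
      rw [e1, e2, ← hm, ← hρ, ← hq]
      have e3 := piece_ineq (n := (n : ℝ)) (C := (1 + ε') * q) hρ0 hρ1.le k1.le (by positivity)
        (by positivity) k4 hML hm1 g5
      refine e3.trans ?_
      rw [hg]
      have e4 : (1 + ε') * q * (κ ^ ρ * Gs ρ (M * L)) = (1 + ε') * c * Gs ρ (M * L) := by
        rw [hc]; ring
      rw [e4]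
      have e5 : (1 + ε') * c * Gs ρ (M * L) ≤ (c + ε₁) * Gs ρ (M * L) := by
        apply mul_le_mul_of_nonneg_right _ hGM.le
        linarith
      linarith
    · intro x hx
      obtain ⟨⟨i1, i2, i3⟩, j2, j3, j4, j5⟩ := (hW k x).1 hx
      refine ⟨i1, i2, i3, fun i => ?_, ?_, ?_⟩
      · rw [hZ]; exact (le_Ht x i).trans j2
      · obtain ⟨i, hi⟩ := exists_Ht hn0 x
        exact ⟨i, by rw [hZ, ← hi]; exact j3⟩
      · have e1 : Z ^ ((n : ℝ) - (n - L / m)) = X := by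
          rw [show (n : ℝ) - (n - L / m) = L / m by ring, Real.rpow_def_of_pos hZ0, ← hm, hX]
          congr 1
          field_simp
        rw [e1]; exact j5
  have hsum : ∑ k ∈ range K, ((W k).card : ℝ) ≤ K * Real.exp g := by
    have := Finset.sum_le_card_nsmul (range K) _ _ hpiece
    rwa [card_range, nsmul_eq_mul] at this
  have hKL : (K : ℝ) ≤ 2 * L + 1 := by
    rw [hK]; exact (Nat.ceil_lt_add_one (by linarith)).le
  have hV : ((VV (P0 n r) M U).ncard : ℝ) ≤ Real.exp g := by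
    refine g1.trans (Real.exp_le_exp.2 ?_)
    have e1 : (1 / M - 1) * (M * L) = (1 - M) * L := by field_simp
    rw [e1, hg]
    linarith
  have hfinal : ((Ra n r M M' X).ncard : ℝ) ≤ (4 * L) * Real.exp g := by
    have h1 : 0 < Real.exp g := Real.exp_pos _
    have h2 : (K : ℝ) * Real.exp g ≤ (2 * L + 1) * Real.exp g :=
      mul_le_mul_of_nonneg_right hKL h1.le
    have h3 : (2 * L + 2) * Real.exp g ≤ 4 * L * Real.exp g :=
      mul_le_mul_of_nonneg_right (by linarith) h1.le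
    have h4 : (2 * L + 2) * Real.exp g = (2 * L + 1) * Real.exp g + Real.exp g := by ring
    linarith
  refine hfinal.trans ?_
  rw [← Real.exp_log (show (0 : ℝ) < 4 * L by linarith), ← Real.exp_add]
  apply Real.exp_le_exp.2
  rw [hg, Real.log_mul (by norm_num) (by linarith)]
  have k5 : Real.log L ≤ ε / 4 * Gs ρ L := by
    rw [div_lt_iff₀ hG] at g3
    exact g3.le
  have k6 : Real.log 4 + 1 ≤ ε / 4 * Gs ρ L := by
    rw [div_le_iff₀ hε] at g4
    linarith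
  have k7 : (c + ε₁) * Gs ρ (M * L) ≤ (c + ε₁) * ((M ^ ρ + ε₂) * Gs ρ L) :=
    mul_le_mul_of_nonneg_left g2 (by linarith)
  have k8 : (c + ε₁) * (M ^ ρ + ε₂) ≤ c * M ^ ρ + ε / 2 := by
    have e : (c + ε₁) * (M ^ ρ + ε₂) = c * M ^ ρ + ε₁ * M ^ ρ + (c + ε₁) * ε₂ := by ring
    rw [e]; linarith
  have k9 : (c + ε₁) * (M ^ ρ + ε₂) * Gs ρ L ≤ (c * M ^ ρ + ε / 2) * Gs ρ L :=
    mul_le_mul_of_nonneg_right k8 hG.le
  rw [← mul_assoc] at k7
  have k10 : (c * M ^ ρ + ε) * Gs ρ L = (c * M ^ ρ + ε / 2) * Gs ρ L + ε / 4 * Gs ρ L +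
      ε / 4 * Gs ρ L := by ring
  rw [k10]
  linarith

/-- the lower bound -/
theorem lowerR {n r : ℕ} (hr : 1 ≤ r) (hrn : r + 2 ≤ n) {M M' : ℝ}
    (hM1 : 1 / (n : ℝ) < M) (hMM : M < M') (hM2 : M' < 3 / (3 * (n : ℝ) - 1)) (ε : ℝ)
    (hε : 0 < ε) :
    ∀ᶠ L : ℝ in atTop,
      Real.exp ((1 - M) * L + (cst r (n.choose r) * ((n : ℝ) * M - 1) ^ ((r : ℝ) / (r + 1)) - ε) *
        Gs ((r : ℝ) / (r + 1)) L) ≤ ((Rn n r M M' (Real.exp L)).ncard : ℝ) := by
  classical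
  have hn3 : 3 ≤ n := by omega
  have hn0 : 0 < n := by omega
  have hr0 : (0 : ℝ) < r := by exact_mod_cast hr
  obtain ⟨ρ, hρ⟩ : ∃ ρ : ℝ, ρ = (r : ℝ) / (r + 1) := ⟨_, rfl⟩
  have hρ0 : 0 < ρ := by rw [hρ]; positivity
  have hρ1 : ρ < 1 := by rw [hρ, div_lt_one (by positivity)]; linarith
  rw [← hρ]
  obtain ⟨hM, hM'1, k1, k2, k3, k4⟩ := basics hn3 hM1 hMM hM2
  have hM'0 : 0 < M' := by linarith
  obtain ⟨κ, hκ⟩ : ∃ κ : ℝ, κ = (n : ℝ) - 1 / M := ⟨_, rfl⟩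
  obtain ⟨κ', hκ'⟩ : ∃ κ' : ℝ, κ' = (n : ℝ) - 1 / M' := ⟨_, rfl⟩
  rw [← hκ] at k1 k2 k4
  rw [← hκ'] at k2 k3
  obtain ⟨q, hq⟩ : ∃ q : ℝ, q = cst r (n.choose r) := ⟨_, rfl⟩
  have hq0 : 0 ≤ q := by
    rw [hq]; unfold cst; positivity
  rw [← hq]
  obtain ⟨c, hc⟩ : ∃ c : ℝ, c = q * ((n : ℝ) * M - 1) ^ ρ := ⟨_, rfl⟩
  have hnM : 0 ≤ (n : ℝ) * M - 1 := by rw [← k4]; positivity
  have hc0 : 0 ≤ c := by rw [hc]; positivity
  rw [← hc]
  obtain ⟨ε', hε'⟩ : ∃ ε' : ℝ, ε' = min (1 / 2) (ε / (2 * (c + 1))) := ⟨_, rfl⟩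
  have hε'0 : 0 < ε' := by rw [hε']; exact lt_min (by norm_num) (by positivity)
  have hε'1 : ε' < 1 := by rw [hε']; exact lt_of_le_of_lt (min_le_left _ _) (by norm_num)
  have hε'c : ε' * c ≤ ε / 2 := by
    have h1 : ε' ≤ ε / (2 * (c + 1)) := by rw [hε']; exact min_le_right _ _
    have h2 : ε' * c ≤ ε / (2 * (c + 1)) * c := mul_le_mul_of_nonneg_right h1 hc0
    refine h2.trans ?_
    rw [div_mul_eq_mul_div, div_le_div_iff₀ (by positivity) (by norm_num)]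
    have e : ε * (2 * (c + 1)) = ε * c * 2 + 2 * ε := by ring
    rw [e]; linarith
  obtain ⟨X₀, hX₀, hlo⟩ := lo_all n r κ 2 ε' hr hrn k1 (by linarith) (by norm_num) hε'0 hε'1
  have hVV := upper up_all hr hrn hM'0 hκ' (by linarith) k3 (P0 n r) (fun x h => h) 1 one_pos
  rw [← hρ, ← hq] at hVV
  have hVV' := (tendsto_id.const_mul_atTop hM).eventually hVV
  obtain ⟨B, hB⟩ : ∃ B : ℝ, B = q * κ' ^ ρ + 1 := ⟨_, rfl⟩
  have hB0 : 0 < B := by
    rw [hB]
    have : 0 ≤ κ' ^ ρ := Real.rpow_nonneg (by linarith) _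
    positivity
  rw [← hB] at hVV'
  -- the difference of the exponents
  obtain ⟨δ, hδ⟩ : ∃ δ : ℝ, δ = (1 / M - 1 / M') := ⟨_, rfl⟩
  have hδ0 : 0 < δ := by rw [hδ]; linarith [hκ, hκ', k2]
  have hsm : ∀ᶠ L : ℝ in atTop, Gs ρ (M * L) / (M * L) < δ / (2 * B) :=
    (tendsto_id.const_mul_atTop hM).eventually
      ((Gs_small hρ0 hρ1).eventually (gt_mem_nhds (by positivity)))
  have hGt : ∀ᶠ L : ℝ in atTop, 2 * Real.log 2 / ε ≤ Gs ρ L :=
    (Gs_tendsto hρ0).eventually_ge_atTop _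
  filter_upwards [hVV', hsm, hGt, eventually_gt_atTop (1 / M),
    eventually_ge_atTop (Real.log X₀ / M), eventually_ge_atTop (2 * Real.log 2 / (δ * M)),
    eventually_gt_atTop 2] with L g1 g2 g3 g6 g7 g9 g8
  simp only [id] at g1 g2
  have hML : 1 < M * L := by rwa [div_lt_iff₀' hM] at g6
  have hMLX : X₀ ≤ Real.exp (M * L) := by
    rw [← Real.log_le_iff_le_exp (by linarith)]
    rwa [div_le_iff₀' hM] at g7
  have hL0 : 0 < L := by linarith
  have hG := Gs_pos (ρ := ρ) (show 1 < L by linarith)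
  obtain ⟨X, hX⟩ : ∃ X : ℝ, X = Real.exp L := ⟨_, rfl⟩
  have hX0 : 0 < X := by rw [hX]; exact Real.exp_pos _
  obtain ⟨U, hU⟩ : ∃ U : ℝ, U = Real.exp (M * L) := ⟨_, rfl⟩
  have hU0 : 0 < U := by rw [hU]; exact Real.exp_pos _
  have hUX : U ^ (1 / M) = X := by
    rw [hU, hX, ← Real.exp_mul]; congr 1; field_simp
  rw [← hU] at g1 hMLX
  rw [← hX]
  obtain ⟨F, hF, h3⟩ := hlo U hMLX
  rw [hU, Real.log_exp, ← hρ, ← hq] at h3
  -- the good tuples
  obtain ⟨F', hF'⟩ : ∃ F' : Finset (Fin n → ℤ), F' = F.filter fun x =>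
    (∀ i, |(x i : ℝ)| ≤ (rr (ab x) : ℝ) ^ M') := ⟨_, rfl⟩
  have hsub : (F' : Set (Fin n → ℤ)) ⊆ Rn n r M M' X := by
    intro x hx
    rw [hF', mem_coe, mem_filter] at hx
    obtain ⟨hx, hx'⟩ := hx
    obtain ⟨i1, i2, i3, i4, i5, i, i6⟩ := hF x hx
    have hR : (0 : ℝ) < rr (ab x) := by exact_mod_cast rr_pos _
    have h5 : (n : ℝ) - κ = 1 / M := by rw [hκ]; ring
    rw [h5] at i6
    have h7 : (rr (ab x) : ℝ) < |(x i : ℝ)| ^ (1 / M) := by linarith
    have h8 : |(x i : ℝ)| ^ (1 / M) ≤ X := by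
      rw [← hUX]
      exact Real.rpow_le_rpow (abs_nonneg _) (i5 i) (by positivity)
    refine ⟨⟨i1, i2, i4, by linarith, ⟨i, ?_⟩, hx'⟩, i3⟩
    have h9 := Real.rpow_lt_rpow hR.le h7 hM
    rwa [← Real.rpow_mul (abs_nonneg _), one_div_mul_cancel hM.ne', Real.rpow_one] at h9
  have hbad : ((F.filter fun x => ¬ (∀ i, |(x i : ℝ)| ≤ (rr (ab x) : ℝ) ^ M')).card : ℝ) ≤
      ((VV (P0 n r) M' U).ncard : ℝ) := by
    have h4 : ((F.filter fun x => ¬ (∀ i, |(x i : ℝ)| ≤ (rr (ab x) : ℝ) ^ M') :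
        Finset (Fin n → ℤ)) : Set (Fin n → ℤ)) ⊆ VV (P0 n r) M' U := by
      intro x hx
      rw [mem_coe, mem_filter] at hx
      obtain ⟨hx, hx'⟩ := hx
      obtain ⟨i1, i2, i3, i4, i5, -⟩ := hF x hx
      push Not at hx'
      obtain ⟨j, hj⟩ := hx'
      exact ⟨⟨i1, i2, i4⟩, Ht_le hn0 i5, hj.trans_le (le_Ht x j)⟩
    have h5 := Set.ncard_le_ncard h4 (VV_fin _ _ _)
    rw [Set.ncard_coe_finset] at h5
    exact_mod_cast h5
  have hRfin : (Rn n r M M' X).Finite := (Ra_fin hn0 hM'0.le X).subset fun x hx => hx.1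
  have h5 : (F'.card : ℝ) ≤ ((Rn n r M M' X).ncard : ℝ) := by
    have := Set.ncard_le_ncard hsub hRfin
    rw [Set.ncard_coe_finset] at this
    exact_mod_cast this
  have h6 : (F.card : ℝ) = F'.card +
      (F.filter fun x => ¬ (∀ i, |(x i : ℝ)| ≤ (rr (ab x) : ℝ) ^ M')).card := by
    rw [hF']
    have := card_filter_add_card_filter_not (s := F)
      (fun x : Fin n → ℤ => ∀ i, |(x i : ℝ)| ≤ (rr (ab x) : ℝ) ^ M')
    exact_mod_cast this.symm
  -- the exponents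
  obtain ⟨E, hE⟩ : ∃ E : ℝ, E = (1 - M) * L + (1 - ε') * c * Gs ρ L := ⟨_, rfl⟩
  have hlM : 0 < Real.log (M * L) := Real.log_pos hML
  have hlL : Real.log (M * L) ≤ Real.log L := by
    refine Real.log_le_log (by linarith) ?_
    have := mul_le_mul_of_nonneg_right (show M ≤ 1 by linarith) hL0.le
    linarith
  have h7 : Real.exp E ≤ F.card := by
    refine le_trans (Real.exp_le_exp.2 ?_) h3
    have e1 : ((n : ℝ) - 1 - κ) * (M * L) = (1 - M) * L := by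
      rw [hκ]; field_simp; ring
    have e2 : κ * (M * L) = (n * M - 1) * L := by rw [← k4]; ring
    rw [e1, e2, hE]
    have e3 : ((n : ℝ) * M - 1) ^ ρ * Gs ρ L ≤ ((n * M - 1) * L / Real.log (M * L)) ^ ρ := by
      unfold Gs
      rw [← Real.mul_rpow hnM (div_nonneg hL0.le (by linarith))]
      apply Real.rpow_le_rpow (mul_nonneg hnM (div_nonneg hL0.le (by linarith))) _ hρ0.le
      rw [mul_div_assoc]
      exact mul_le_mul_of_nonneg_left (div_le_div_of_nonneg_left hL0.le hlM hlL) hnM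
    have e4 : (1 - ε') * c * Gs ρ L = (1 - ε') * q * (((n : ℝ) * M - 1) ^ ρ * Gs ρ L) := by
      rw [hc]; ring
    rw [e4]
    have e5 := mul_le_mul_of_nonneg_left e3 (show 0 ≤ (1 - ε') * q from
      mul_nonneg (by linarith) hq0)
    linarith
  have h8 : ((VV (P0 n r) M' U).ncard : ℝ) ≤ Real.exp E / 2 := by
    refine g1.trans ?_
    rw [le_div_iff₀ (by norm_num : (0 : ℝ) < 2)]
    have e0 : Real.exp (Real.log 2) = 2 := Real.exp_log (by norm_num)
    rw [← e0, ← Real.exp_add]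
    apply Real.exp_le_exp.2
    rw [hE]
    have e1 : (1 / M' - 1) * (M * L) = (1 - M) * L - δ * (M * L) := by
      rw [hδ]; field_simp; ring
    rw [e1]
    have e2 : B * Gs ρ (M * L) ≤ δ / 2 * (M * L) := by
      rw [div_lt_iff₀ (by linarith)] at g2
      have e3 := mul_le_mul_of_nonneg_left g2.le hB0.le
      have e4 : B * (δ / (2 * B) * (M * L)) = δ / 2 * (M * L) := by field_simp
      linarith
    have e5 : Real.log 2 ≤ δ / 2 * (M * L) := by
      rw [div_le_iff₀ (by positivity)] at g9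
      linarith
    have e6 : 0 ≤ (1 - ε') * c * Gs ρ L :=
      mul_nonneg (mul_nonneg (by linarith) hc0) hG.le
    linarith
  have h9 : Real.exp E / 2 ≤ ((Rn n r M M' X).ncard : ℝ) := by
    have : (F.card : ℝ) ≤ ((Rn n r M M' X).ncard : ℝ) + Real.exp E / 2 := by
      rw [h6]; linarith
    linarith
  refine le_trans ?_ h9
  rw [le_div_iff₀ (by norm_num : (0 : ℝ) < 2)]
  have e0 : Real.exp (Real.log 2) = 2 := Real.exp_log (by norm_num)
  rw [← e0, ← Real.exp_add]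
  apply Real.exp_le_exp.2
  rw [hE]
  have e1 : Real.log 2 ≤ ε / 2 * Gs ρ L := by
    rw [div_le_iff₀ hε] at g3
    linarith
  have e2 : ε' * c * Gs ρ L ≤ ε / 2 * Gs ρ L := mul_le_mul_of_nonneg_right hε'c hG.le
  linarith

/-- **FINRN** -/
theorem finrn (h1 : S_UPR) : S_FINRN := by
  intro n r M M' hr hrn hM1 hMM hM2
  have hn0 : 0 < n := by omega
  have hr0 : (0 : ℝ) < r := by exact_mod_cast hr
  obtain ⟨hM, hM'1, -, -, -, -⟩ := basics (by omega : 3 ≤ n) hM1 hMM hM2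
  have hρ0 : 0 < (r : ℝ) / (r + 1) := by positivity
  have hle : ∀ L : ℝ, ((Rn n r M M' (Real.exp L)).ncard : ℝ) ≤
      ((Ra n r M M' (Real.exp L)).ncard : ℝ) := by
    intro L
    exact_mod_cast Set.ncard_le_ncard
      (fun x (hx : x ∈ Rn n r M M' (Real.exp L)) => hx.1) (Ra_fin hn0 (by linarith) _)
  refine ⟨fun X => Ra_fin hn0 (by linarith) X, ?_, ?_⟩
  · have h := squeeze hρ0 (fun L => ((Ra n r M M' (Real.exp L)).ncard : ℝ))
      (fun ε hε => upperR h1 hr hrn hM1 hMM hM2 ε hε)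
      (fun ε hε => by
        filter_upwards [lowerR hr hrn hM1 hMM hM2 ε hε] with L h2
        exact h2.trans (hle L))
    have h2 := h.comp Real.tendsto_log_atTop
    refine h2.congr' ?_
    filter_upwards [eventually_gt_atTop (0 : ℝ)] with X hX
    simp only [Function.comp_apply, Gs]
    rw [Real.exp_log hX]
  · have h := squeeze hρ0 (fun L => ((Rn n r M M' (Real.exp L)).ncard : ℝ))
      (fun ε hε => by
        filter_upwards [upperR h1 hr hrn hM1 hMM hM2 ε hε] with L h2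
        exact (hle L).trans h2)
      (fun ε hε => lowerR hr hrn hM1 hMM hM2 ε hε)
    have h2 := h.comp Real.tendsto_log_atTop
    refine h2.congr' ?_
    filter_upwards [eventually_gt_atTop (0 : ℝ)] with X hX
    simp only [Function.comp_apply, Gs]
    rw [Real.exp_log hX]

end Pool.Agent.N494.RN
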